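import Pool.Agent.H78.KP.Stmts

/-!
# Project KP, module L1W: correlation of a linear function with the square of the gradient
-/

set_option autoImplicit false

open MeasureTheory Set Filter Topology
open scoped ContDiff

namespace Pool.Agent.H78.KP

open Pool.Agent.H84 Pool.Agent.H84.Sym Pool.Agent.H84.Sym.P2x Pool.Agent.H19.KL
open Pool.Agent.H73.KG Pool.Agent.H20.KH

section

set_option linter.unusedSectionVars false

variable {E : Type} [NormedAddCommGroup E] [InnerProductSpace ℝ E]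
    [FiniteDimensional ℝ E] [MeasurableSpace E] [BorelSpace E]
variable {ι : Type} [Fintype ι]

private theorem L1W_tstD {f : E → ℝ} (hf : Tst f) (e : E) : Tst (D e f) :=
  ⟨contDiff_D hf.1 (by simp) e, hcs_D hf.2 e⟩

private theorem L1W_tst0 : Tst (fun _ : E => (0:ℝ)) :=
  ⟨contDiff_const, HasCompactSupport.zero⟩

private theorem L1W_tstadd {f g : E → ℝ} (hf : Tst f) (hg : Tst g) : Tst (fun x => f x + g x) :=
  ⟨hf.1.add hg.1, hf.2.add hg.2⟩

private theorem L1W_tstsq {f : E → ℝ} (hf : Tst f) : Tst (fun x => f x ^ 2) := by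
  refine ⟨hf.1.pow 2, ?_⟩
  exact hf.2.comp_left (g := fun y : ℝ => y ^ 2) (by simp)

private theorem L1W_tstsum {κ : Type*} (s : Finset κ) {f : κ → E → ℝ} (hf : ∀ i, Tst (f i)) :
    Tst (fun x => ∑ i ∈ s, f i x) := by
  classical
  induction s using Finset.induction_on with
  | empty => simpa using (L1W_tst0 (E := E))
  | insert a s ha ih =>
      have := L1W_tstadd (hf a) ih
      simpa [Finset.sum_insert ha] using this

private theorem L1W_tstG (b : OrthonormalBasis ι ℝ E) {u : E → ℝ} (hu : Tst u) :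
    Tst (fun x => ∑ i, (D (b i) u x) ^ 2) :=
  L1W_tstsum _ fun i => L1W_tstsq (L1W_tstD hu (b i))

private theorem L1W_tstH (b : OrthonormalBasis ι ℝ E) {u : E → ℝ} (hu : Tst u) :
    Tst (hq b u) :=
  L1W_tstsum _ fun i => L1W_tstsum _ fun j => L1W_tstsq (L1W_tstD (L1W_tstD hu (b i)) (b j))

private theorem L1W_DG (b : OrthonormalBasis ι ℝ E) {u : E → ℝ} (hu : Tst u) (e x : E) :
    D e (fun x => ∑ i, (D (b i) u x) ^ 2) x = 2 * ∑ i, D (b i) u x * D e (D (b i) u) x := by
  have hd : ∀ i, DifferentiableAt ℝ (D (b i) u) x := fun i =>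
    ((L1W_tstD hu (b i)).1.differentiable (by simp)) x
  have h2 : ∀ i, (fun x => (D (b i) u x) ^ 2) = fun x => D (b i) u x * D (b i) u x := by
    intro i; funext y; ring
  rw [D_sum]
  · rw [Finset.mul_sum]
    refine Finset.sum_congr rfl fun i _ => ?_
    rw [h2 i, D_mul (hd i) (hd i)]
    ring
  · intro i _
    rw [h2 i]
    exact (hd i).mul (hd i)

/-- the pointwise bound -/
private theorem L1W_pt (b : OrthonormalBasis ι ℝ E) {u : E → ℝ} (hu : Tst u) (k : ι) (σ : ℝ)
    (hσ : σ ^ 2 = 1) (O : Matrix ι ι ℝ) (hO : CT O) (x : E) :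
    ∑ l, O k l * (σ * D (b l) (fun x => ∑ i, (D (b i) u x) ^ 2) x) ≤
      (∑ i, (D (b i) u x) ^ 2) + hq b u x := by
  classical
  have hct := hO (fun m => if m = k then 1 else 0)
    (fun l => σ * D (b l) (fun x => ∑ i, (D (b i) u x) ^ 2) x)
  have e1 : (∑ m, ∑ l, O m l * ((if m = k then (1:ℝ) else 0) *
      (σ * D (b l) (fun x => ∑ i, (D (b i) u x) ^ 2) x))) =
      ∑ l, O k l * (σ * D (b l) (fun x => ∑ i, (D (b i) u x) ^ 2) x) := by
    rw [Finset.sum_eq_single k]
    · simp
    · intro m _ hm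
      simp [hm]
    · intro h; exact absurd (Finset.mem_univ k) h
  have e2 : (∑ m, (if m = k then (1:ℝ) else 0) ^ 2) = 1 := by
    rw [Finset.sum_eq_single k]
    · simp
    · intro m _ hm
      simp [hm]
    · intro h; exact absurd (Finset.mem_univ k) h
  rw [e1, e2, one_mul] at hct
  set G := ∑ i, (D (b i) u x) ^ 2 with hG
  set S := ∑ l, O k l * (σ * D (b l) (fun x => ∑ i, (D (b i) u x) ^ 2) x) with hS
  have hG0 : 0 ≤ G := Finset.sum_nonneg fun i _ => sq_nonneg _
  have hH0 : 0 ≤ hq b u x := Finset.sum_nonneg fun i _ => Finset.sum_nonneg fun j _ => sq_nonneg _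
  have e3 : ∑ l, (σ * D (b l) (fun x => ∑ i, (D (b i) u x) ^ 2) x) ^ 2 ≤ 4 * (G * hq b u x) := by
    have h1 : ∀ l, (σ * D (b l) (fun x => ∑ i, (D (b i) u x) ^ 2) x) ^ 2 ≤
        4 * (G * ∑ i, (D (b l) (D (b i) u) x) ^ 2) := by
      intro l
      rw [mul_pow, hσ, one_mul, L1W_DG b hu, mul_pow]
      have := Finset.sum_mul_sq_le_sq_mul_sq Finset.univ (fun i => D (b i) u x)
        (fun i => D (b l) (D (b i) u) x)
      nlinarith [this]
    refine (Finset.sum_le_sum fun l _ => h1 l).trans (le_of_eq ?_)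
    rw [← Finset.mul_sum, ← Finset.mul_sum, Finset.sum_comm]
    rfl
  have e4 : S ^ 2 ≤ (G + hq b u x) ^ 2 := by
    nlinarith [sq_nonneg (G - hq b u x)]
  exact abs_le_of_sq_le_sq' e4 (by positivity) |>.2

private theorem L1W_nd (b : OrthonormalBasis ι ℝ E) [DecidableEq ι] {u : E → ℝ} (hu : Tst u) (k : ι)
    (σ : ℝ) (hσ : σ ^ 2 = 1) :
    ND b (fun m x => if m = k then σ * ∑ i, (D (b i) u x) ^ 2 else 0)
      (fun x => (∑ i, (D (b i) u x) ^ 2) + hq b u x) := by
  refine ⟨fun m => ?_, ?_, ?_⟩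
  · by_cases hm : m = k
    · simp only [hm, if_true]
      exact ⟨contDiff_const.mul (L1W_tstG b hu).1, (L1W_tstG b hu).2.mul_left⟩
    · simp only [hm, if_false]
      exact L1W_tst0
  · have h := L1W_tstadd (L1W_tstG b hu) (L1W_tstH b hu)
    obtain ⟨C, hC⟩ := ContDiff.lipschitzWith_of_hasCompactSupport h.2 h.1 (by simp)
    refine ⟨C, fun x y => ?_⟩
    have := hC.dist_le_mul x y
    rwa [Real.dist_eq, dist_eq_norm] at this
  · intro O hO x
    have h1 : ∀ m l, D (b l) (fun x => if m = k then σ * ∑ i, (D (b i) u x) ^ 2 else 0) x =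
        if m = k then σ * D (b l) (fun x => ∑ i, (D (b i) u x) ^ 2) x else 0 := by
      intro m l
      by_cases hm : m = k
      · simp only [hm, if_true]
        have hd : DifferentiableAt ℝ (fun x => ∑ i, (D (b i) u x) ^ 2) x :=
          ((L1W_tstG b hu).1.differentiable (by simp)) x
        have hc : DifferentiableAt ℝ (fun _ : E => σ) x := differentiableAt_const σ
        rw [D_mul hc hd]
        simp [D]
      · simp only [hm, if_false]
        simp [D]
    have h2 : ∑ m, ∑ l, O m l *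
        D (b l) (fun x => if m = k then σ * ∑ i, (D (b i) u x) ^ 2 else 0) x =
        ∑ l, O k l * (σ * D (b l) (fun x => ∑ i, (D (b i) u x) ^ 2) x) := by
      simp only [h1]
      rw [Finset.sum_eq_single k]
      · simp
      · intro m _ hm
        simp [hm]
      · intro h; exact absurd (Finset.mem_univ k) h
    rw [h2]
    exact L1W_pt b hu k σ hσ O hO x

end

theorem l1w_thm (E : Type) [NormedAddCommGroup E] [InnerProductSpace ℝ E]
    [FiniteDimensional ℝ E] [MeasurableSpace E] [BorelSpace E] (h1 : NSFStmt E) : L1WStmt E := by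
  intro U t hU ι _ b k u hu
  classical
  obtain ⟨⟨C, hC⟩, hprob⟩ := hU
  have hUc : Continuous U := hC.smooth.continuous
  have hGeq : (fun x => ‖fderiv ℝ u x‖ ^ 2) = fun x => ∑ i, (D (b i) u x) ^ 2 := by
    funext x
    rw [nsq_clm b]
    rfl
  have hGi : Integrable (fun x => ∑ i, (D (b i) u x) ^ 2) (mu U) :=
    integrable_mu hUc (L1W_tstG b hu).1.continuous (L1W_tstG b hu).2
  have hHi : Integrable (hq b u) (mu U) :=
    integrable_mu hUc (L1W_tstH b hu).1.continuous (L1W_tstH b hu).2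
  have key : ∀ σ : ℝ, σ ^ 2 = 1 →
      σ * cv U (li (b k)) (fun x => ‖fderiv ℝ u x‖ ^ 2) ≤ 1 / t * (Y1 U u + Z1 b U u) := by
    intro σ hσ
    have h := h1 ι b _ _ (L1W_nd b hu k σ hσ) U t ⟨⟨C, hC⟩, hprob⟩
    have e1 : ∑ m, cv U (li (b m)) (fun x => if m = k then σ * ∑ i, (D (b i) u x) ^ 2 else 0) =
        σ * cv U (li (b k)) (fun x => ‖fderiv ℝ u x‖ ^ 2) := by
      rw [Finset.sum_eq_single k]
      · rw [hGeq]
        simp only [if_true, H73.KG.cv]
        have a1 : (fun x => li (b k) x * (σ * ∑ i, (D (b i) u x) ^ 2)) =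
            fun x => σ * (li (b k) x * ∑ i, (D (b i) u x) ^ 2) := by
          funext x; ring
        rw [a1, integral_const_mul, integral_const_mul]
        ring
      · intro m _ hm
        simp [hm, H73.KG.cv]
      · intro h; exact absurd (Finset.mem_univ k) h
    have e2 : ∫ x, ((∑ i, (D (b i) u x) ^ 2) + hq b u x) ∂(mu U) = Y1 U u + Z1 b U u := by
      rw [integral_add hGi hHi]
      unfold Y1 Z1
      rw [hGeq]
    rw [← e1, ← e2]
    exact h
  rw [abs_le]
  have k1 := key 1 (by norm_num)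
  have k2 := key (-1) (by norm_num)
  constructor <;> linarith

end Pool.Agent.H78.KP
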